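import Pool.Agent.Helper427.FPX.Defs

open Filter Topology

namespace FPX



theorem det_deriv_aux_prod {A : Type*} [CommRing A] [Algebra ℝ A] (D : Derivation ℝ A A)
    {ι : Type*} [DecidableEq ι] (s : Finset ι) (f : ι → A) :
    D (∏ i ∈ s, f i) = ∑ i ∈ s, ∏ j ∈ s, (Function.update f i (D (f i))) j := by
  induction s using Finset.induction_on with
  | empty => simp
  | insert a s ha ih =>
    rw [Finset.prod_insert ha, D.leibniz, ih, Finset.sum_insert ha, Finset.prod_insert ha,
      Function.update_self]
    have e1 : ∏ j ∈ s, (Function.update f a (D (f a))) j = ∏ j ∈ s, f j := by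
      apply Finset.prod_congr rfl
      intro j hj
      rw [Function.update_of_ne]
      rintro rfl
      exact ha hj
    have e2 : ∀ i ∈ s, ∏ j ∈ insert a s, (Function.update f i (D (f i))) j
        = f a * ∏ j ∈ s, (Function.update f i (D (f i))) j := by
      intro i hi
      rw [Finset.prod_insert ha, Function.update_of_ne]
      rintro rfl
      exact ha hi
    rw [e1, Finset.sum_congr rfl e2, ← Finset.mul_sum, smul_eq_mul, smul_eq_mul]
    ring

/-- Jacobi's formula for derivations -/
theorem det_deriv {A : Type*} [CommRing A] [Algebra ℝ A] (D : Derivation ℝ A A)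
    (N : Matrix (Fin 6) (Fin 6) A) :
    D N.det = ∑ i, ∑ j, N.adjugate j i * D (N i j) := by
  have h1 : ∀ i : Fin 6, ∑ k, N.adjugate i k * D (N k i)
      = (N.updateCol i (fun k => D (N k i))).det := by
    intro i
    rw [← Matrix.cramer_apply, Matrix.cramer_eq_adjugate_mulVec]
    rfl
  rw [Finset.sum_comm, Finset.sum_congr rfl (fun i _ => h1 i), Matrix.det_apply, map_sum]
  have h2 : ∀ σ : Equiv.Perm (Fin 6),
      D (Equiv.Perm.sign σ • ∏ i, N (σ i) i)
      = ∑ i, Equiv.Perm.sign σ • ∏ j, (N.updateCol i (fun k => D (N k i))) (σ j) j := by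
    intro σ
    rw [Units.smul_def, D.map_smul_of_tower, det_deriv_aux_prod, Finset.smul_sum]
    apply Finset.sum_congr rfl
    intro i _
    congr 1
    apply Finset.prod_congr rfl
    intro j _
    by_cases hj : j = i
    · subst hj
      rw [Function.update_self, Matrix.updateCol_self]
    · rw [Function.update_of_ne hj, Matrix.updateCol_ne hj]
  rw [Finset.sum_congr rfl (fun σ _ => h2 σ), Finset.sum_comm]
  apply Finset.sum_congr rfl
  intro i _
  rw [Matrix.det_apply]

end FPX
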