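import Pool.Agent.Helper427.FPX.Defs

open Filter Topology

namespace FPX



/-- Functional-analytic core of the Bochner-Hodge vanishing argument, without completions.
`X` = exact forms, `P` = forms, `α0` closed form with non-zero period `L`, `D` = first order operator
`(d, δ)`, `J m` mollifiers, `T m u = J m (D u)`. -/
theorem abstract_hodge {V W : Type*} [AddCommGroup V] [Module ℝ V] [AddCommGroup W] [Module ℝ W]
    (B : V →ₗ[ℝ] V →ₗ[ℝ] ℝ) (hBsymm : ∀ u v, B u v = B v u) (hBpos : ∀ u, 0 ≤ B u u)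
    (P X : Submodule ℝ V) (hXP : X ≤ P) (α0 : V) (hα : α0 ∈ P)
    (nW : W → ℝ) (hW0 : ∀ w, 0 ≤ nW w) (hW2 : ∀ w w', nW (w + w') ≤ 2 * nW w + 2 * nW w')
    (D : V →ₗ[ℝ] W) (J : ℕ → V →ₗ[ℝ] V) (hJP : ∀ m, ∀ u ∈ P, J m u ∈ P)
    (T : ℕ → V →ₗ[ℝ] W) (c C : ℝ) (hc : 0 < c) (hC : 0 ≤ C) (m0 : ℕ)
    (h1 : ∀ u ∈ P, c * B u u ≤ nW (D u))
    (h2 : ∀ m, m0 ≤ m → ∀ u, nW (D (J m u) - T m u) ≤ C * B u u)
    (h3 : ∀ u, Tendsto (fun m => nW (D (J m u) - T m u)) atTop (𝓝 0))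
    (h4 : ∀ m, m0 ≤ m → ∀ u, B (J m u) (J m u) ≤ C * B u u)
    (h4' : ∀ u, Tendsto (fun m => B (J m u - u) (J m u - u)) atTop (𝓝 0))
    (h5 : ∀ m, ∃ (n : ℕ) (w : Fin n → V) (Cm : ℝ), 0 ≤ Cm ∧ (∀ j, w j ∈ X) ∧
      ∀ u, u - α0 ∈ X → nW (T m u) ≤ Cm * ∑ j, (B u (w j)) ^ 2)
    (L : V →ₗ[ℝ] ℝ) (CL : ℝ) (hL0 : ∀ w ∈ X, L w = 0) (hL1 : L α0 ≠ 0)
    (hL2 : ∀ u, (L u) ^ 2 ≤ CL * B u u) : False := by
  -- quadratic identities
  have hadd : ∀ x y, B (x + y) (x + y) = B x x + 2 * B x y + B y y := by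
    intro x y
    simp only [map_add, LinearMap.add_apply]
    rw [hBsymm y x]; ring
  have hsub : ∀ x y, B (x - y) (x - y) = B x x - 2 * B x y + B y y := by
    intro x y
    simp only [map_sub, LinearMap.sub_apply]
    rw [hBsymm y x]; ring
  have hsm : ∀ (t : ℝ) x, B (t • x) (t • x) = t ^ 2 * B x x := by
    intro t x
    simp only [map_smul, LinearMap.smul_apply, smul_eq_mul]; ring
  have hq2 : ∀ x y, B (x + y) (x + y) ≤ 2 * B x x + 2 * B y y := by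
    intro x y
    have h := hBpos (x - y)
    rw [hsub] at h
    rw [hadd]; linarith
  have hq2' : ∀ x y, B (x - y) (x - y) ≤ 2 * B x x + 2 * B y y := by
    intro x y
    have h := hBpos (x + y)
    rw [hadd] at h
    rw [hsub]; linarith
  -- infimum
  obtain ⟨I, hI, hIa⟩ : ∃ I : ℝ, (∀ w ∈ X, I ≤ B (α0 + w) (α0 + w)) ∧
      ∀ e : ℝ, 0 < e → ∃ w ∈ X, B (α0 + w) (α0 + w) ≤ I + e := by
    let S : Set ℝ := {r | ∃ w ∈ X, r = B (α0 + w) (α0 + w)}
    have hSne : S.Nonempty := ⟨_, 0, X.zero_mem, rfl⟩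
    have hSb : BddBelow S := ⟨0, by
      rintro r ⟨w, _, rfl⟩
      exact hBpos _⟩
    refine ⟨sInf S, ?_, ?_⟩
    · intro w hw
      exact csInf_le hSb ⟨w, hw, rfl⟩
    · intro e he
      obtain ⟨r, ⟨w, hw, rfl⟩, hr⟩ := exists_lt_of_csInf_lt hSne (lt_add_of_pos_right (sInf S) he)
      exact ⟨w, hw, hr.le⟩
  have hch : ∀ n : ℕ, ∃ w ∈ X, B (α0 + w) (α0 + w) ≤ I + 1 / ((n : ℝ) + 1) := by
    intro n
    exact hIa _ (by positivity)
  choose w hwX hwI using hch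
  -- (a)
  have ha : ∀ n, ∀ x ∈ X, (B (α0 + w n) x) ^ 2 ≤ (1 / ((n : ℝ) + 1)) * B x x := by
    intro n x hx
    have hd : discrim (B x x) (2 * B (α0 + w n) x) (1 / ((n : ℝ) + 1)) ≤ 0 := by
      apply discrim_le_zero
      intro t
      have h1 := hI (w n + t • x) (X.add_mem (hwX n) (X.smul_mem t hx))
      have h2 : α0 + (w n + t • x) = (α0 + w n) + t • x := by abel
      rw [h2, hadd, hsm] at h1
      have h3 : B (α0 + w n) (t • x) = t * B (α0 + w n) x := by simp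
      rw [h3] at h1
      have h4 := hwI n
      nlinarith
    rw [discrim] at hd
    nlinarith
  -- (b)
  have hb : ∀ n k, B ((α0 + w n) - (α0 + w k)) ((α0 + w n) - (α0 + w k))
      ≤ 2 / ((n : ℝ) + 1) + 2 / ((k : ℝ) + 1) := by
    intro n k
    have h1 := hI ((1 / 2 : ℝ) • (w n + w k)) (X.smul_mem _ (X.add_mem (hwX n) (hwX k)))
    have h2 : α0 + (1 / 2 : ℝ) • (w n + w k) = (1 / 2 : ℝ) • ((α0 + w n) + (α0 + w k)) := by
      module
    rw [h2, hsm, hadd] at h1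
    rw [hsub]
    have h3 := hwI n
    have h4 := hwI k
    have e1 : 2 / ((n : ℝ) + 1) = 2 * (1 / ((n : ℝ) + 1)) := by ring
    have e2 : 2 / ((k : ℝ) + 1) = 2 * (1 / ((k : ℝ) + 1)) := by ring
    rw [e1, e2]
    linarith
  -- (c)
  have hLpos : 0 < (L α0) ^ 2 := by positivity
  have hCL : 0 < CL := by
    have h1 := hL2 α0
    have h2 := hBpos α0
    by_contra hneg
    have h3 : CL * B α0 α0 ≤ 0 := mul_nonpos_of_nonpos_of_nonneg (le_of_not_gt hneg) h2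
    linarith
  obtain ⟨δ, hδ, hδu⟩ : ∃ δ : ℝ, 0 < δ ∧ ∀ n, δ ≤ B (α0 + w n) (α0 + w n) := by
    refine ⟨(L α0) ^ 2 / CL, by positivity, fun n => ?_⟩
    rw [div_le_iff₀ hCL]
    have h1 := hL2 (α0 + w n)
    rw [map_add, hL0 _ (hwX n), add_zero] at h1
    linarith
  -- (d)
  obtain ⟨ε, hε, hεs⟩ : ∃ ε : ℝ, 0 < ε ∧ (c * (8 + 2 * C) + 4 * C + 6) * ε < c * δ / 2 := by
    have hK : 0 < c * (8 + 2 * C) + 4 * C + 6 := by positivity
    refine ⟨c * δ / (4 * (c * (8 + 2 * C) + 4 * C + 6)), by positivity, ?_⟩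
    have h1 : (c * (8 + 2 * C) + 4 * C + 6) * (c * δ / (4 * (c * (8 + 2 * C) + 4 * C + 6)))
        = c * δ / 4 := by
      field_simp
    rw [h1]
    have : 0 < c * δ := by positivity
    linarith
  obtain ⟨N, hN⟩ := exists_nat_gt (4 / ε)
  have hNc : ∀ n, N ≤ n → B ((α0 + w n) - (α0 + w N)) ((α0 + w n) - (α0 + w N)) ≤ ε := by
    intro n hn
    refine (hb n N).trans ?_
    have hNn : (N : ℝ) ≤ n := by exact_mod_cast hn
    have h1 : 2 / ((n : ℝ) + 1) ≤ 2 / ((N : ℝ) + 1) := by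
      apply div_le_div_of_nonneg_left (by norm_num) (by positivity)
      linarith
    have h2 : 2 / ((N : ℝ) + 1) ≤ ε / 2 := by
      rw [div_le_iff₀ (by positivity)]
      rw [div_lt_iff₀ hε] at hN
      nlinarith
    linarith
  obtain ⟨m, hm0, hm3, hm4⟩ : ∃ m, m0 ≤ m ∧
      nW (D (J m (α0 + w N)) - T m (α0 + w N)) ≤ ε ∧
      B (J m (α0 + w N) - (α0 + w N)) (J m (α0 + w N) - (α0 + w N)) ≤ ε := by
    have e3 := (h3 (α0 + w N)).eventually (eventually_le_nhds hε)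
    have e4 := (h4' (α0 + w N)).eventually (eventually_le_nhds hε)
    obtain ⟨m, h⟩ := ((eventually_ge_atTop m0).and (e3.and e4)).exists
    exact ⟨m, h.1, h.2.1, h.2.2⟩
  obtain ⟨n, hnN, hn5⟩ : ∃ n, N ≤ n ∧ nW (T m (α0 + w n)) ≤ ε := by
    obtain ⟨k, x, Cm, hCm, hxX, hT⟩ := h5 m
    obtain ⟨M, hM⟩ := exists_nat_ge (Cm * (∑ j, B (x j) (x j)) / ε)
    refine ⟨max N M, le_max_left _ _, ?_⟩
    refine (hT (α0 + w (max N M)) (by simpa using hwX _)).trans ?_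
    have h1 : ∑ j, (B (α0 + w (max N M)) (x j)) ^ 2
        ≤ (1 / (((max N M : ℕ) : ℝ) + 1)) * ∑ j, B (x j) (x j) := by
      rw [Finset.mul_sum]
      exact Finset.sum_le_sum (fun j _ => ha _ _ (hxX j))
    have h2 : (M : ℝ) ≤ ((max N M : ℕ) : ℝ) := by exact_mod_cast le_max_right N M
    have h3' : Cm * (∑ j, B (x j) (x j)) ≤ ((((max N M : ℕ) : ℝ) + 1)) * ε := by
      rw [div_le_iff₀ hε] at hM
      nlinarith
    calc Cm * ∑ j, (B (α0 + w (max N M)) (x j)) ^ 2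
        ≤ Cm * ((1 / (((max N M : ℕ) : ℝ) + 1)) * ∑ j, B (x j) (x j)) :=
          mul_le_mul_of_nonneg_left h1 hCm
      _ = (Cm * (∑ j, B (x j) (x j))) / (((max N M : ℕ) : ℝ) + 1) := by ring
      _ ≤ ε := by
          rw [div_le_iff₀ (by positivity)]
          linarith
  have hNn := hNc n hnN
  -- abbreviations
  have huP : ∀ n, α0 + w n ∈ P := fun n => P.add_mem hα (hXP (hwX n))
  have hv1 := h1 (J m (α0 + w n)) (hJP m _ (huP n))
  have hA1 : nW (D (J m ((α0 + w n) - (α0 + w N))) - T m ((α0 + w n) - (α0 + w N))) ≤ C * ε :=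
    (h2 m hm0 _).trans (mul_le_mul_of_nonneg_left hNn hC)
  have hDv : D (J m (α0 + w n)) =
      ((D (J m ((α0 + w n) - (α0 + w N))) - T m ((α0 + w n) - (α0 + w N)))
        + (D (J m (α0 + w N)) - T m (α0 + w N))) + T m (α0 + w n) := by
    rw [map_sub (J m) (α0 + w n), map_sub D, map_sub (T m) (α0 + w n)]
    abel
  have hDv2 : nW (D (J m (α0 + w n))) ≤ (4 * C + 6) * ε := by
    rw [hDv]
    have s1 := hW2 ((D (J m ((α0 + w n) - (α0 + w N))) - T m ((α0 + w n) - (α0 + w N)))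
        + (D (J m (α0 + w N)) - T m (α0 + w N))) (T m (α0 + w n))
    have s2 := hW2 (D (J m ((α0 + w n) - (α0 + w N))) - T m ((α0 + w n) - (α0 + w N)))
        (D (J m (α0 + w N)) - T m (α0 + w N))
    linarith
  have hJ4 : B (J m ((α0 + w n) - (α0 + w N))) (J m ((α0 + w n) - (α0 + w N))) ≤ C * ε :=
    (h4 m hm0 _).trans (mul_le_mul_of_nonneg_left hNn hC)
  have hdiff : (α0 + w n) - J m (α0 + w n) =
      (((α0 + w n) - (α0 + w N)) - (J m (α0 + w N) - (α0 + w N)))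
        - J m ((α0 + w n) - (α0 + w N)) := by
    rw [map_sub (J m) (α0 + w n)]
    abel
  have hdq : B ((α0 + w n) - J m (α0 + w n)) ((α0 + w n) - J m (α0 + w n)) ≤ (8 + 2 * C) * ε := by
    rw [hdiff]
    have s1 := hq2' (((α0 + w n) - (α0 + w N)) - (J m (α0 + w N) - (α0 + w N)))
      (J m ((α0 + w n) - (α0 + w N)))
    have s2 := hq2' ((α0 + w n) - (α0 + w N)) (J m (α0 + w N) - (α0 + w N))
    linarith
  have hvq : δ ≤ 2 * ((8 + 2 * C) * ε) + 2 * B (J m (α0 + w n)) (J m (α0 + w n)) := by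
    have s1 := hq2 ((α0 + w n) - J m (α0 + w n)) (J m (α0 + w n))
    rw [sub_add_cancel] at s1
    have s2 := hδu n
    linarith
  have hfin : c * δ ≤ c * (2 * ((8 + 2 * C) * ε) + 2 * B (J m (α0 + w n)) (J m (α0 + w n))) :=
    mul_le_mul_of_nonneg_left hvq hc.le
  nlinarith

end FPX
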